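import Pool.Agent.Helper85.IA.St

/-!
# Project IA, module LO1: the statistic `F1` depends weakly on each coordinate
-/

set_option autoImplicit false

namespace Pool.Agent.Helper85.IA85

open Finset Pool.Agent.Helper93.IA Pool.Agent.Helper85.IA

section

variable {α β γ : Type} [Fintype α] [Fintype β] [Fintype γ] [DecidableEq α] [DecidableEq β]
  [DecidableEq γ]

private lemma l_upd (σ : α × β → Option γ) (p q : α × β) (c0 c' : γ) (h : c' ≠ c0) :
    Function.update σ p (some c0) q = some c' ↔ Function.update σ p none q = some c' := by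
  by_cases hq : q = p
  · subst hq
    simp only [Function.update_self, Option.some.injEq]
    exact ⟨fun e => absurd e.symm h, fun e => absurd e (by simp)⟩
  · rw [Function.update_of_ne hq, Function.update_of_ne hq]

private lemma l_other (σ : α × β → Option γ) (p : α × β) (c0 c' : γ) (h : c' ≠ c0) (a : α)
    (b : β) :
    Us (Function.update σ p (some c0)) a b c' ↔ Us (Function.update σ p none) a b c' := by
  have h1 := fun q => l_upd σ p q c0 c' h
  unfold Us
  simp only [ne_eq, h1]

private lemma l_far (σ : α × β → Option γ) (a0 : α) (b0 : β) (v : Option γ) (c' : γ) (a : α)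
    (b : β) (ha : a ≠ a0) (hb : b ≠ b0) :
    Us (Function.update σ (a0, b0) v) a b c' ↔ Us (Function.update σ (a0, b0) none) a b c' := by
  have h1 : ∀ b', Function.update σ (a0, b0) v (a, b')
      = Function.update σ (a0, b0) none (a, b') := by
    intro b'
    have hn : (a, b') ≠ (a0, b0) := fun e => ha (Prod.ext_iff.1 e).1
    rw [Function.update_of_ne hn, Function.update_of_ne hn]
  have h2 : ∀ a', Function.update σ (a0, b0) v (a', b)
      = Function.update σ (a0, b0) none (a', b) := by
    intro a'
    have hn : (a', b) ≠ (a0, b0) := fun e => hb (Prod.ext_iff.1 e).2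
    rw [Function.update_of_ne hn, Function.update_of_ne hn]
  unfold Us
  simp only [h1, h2]

private lemma l_k01 (hK : StKUB) (σ : α × β → Option γ) :
    (∀ b c, 0 ≤ kB σ b c ∧ kB σ b c ≤ 1) ∧ ∀ c a, 0 ≤ kC σ c a ∧ kC σ c a ≤ 1 := by
  obtain ⟨h1, h2, h3⟩ := hK α β γ σ
  refine ⟨fun b c => ?_, fun c a => ?_⟩
  · rw [h2 b c]; split_ifs <;> norm_num
  · rw [h3 c a]; split_ifs <;> norm_num

private lemma l_fac (s t k l : ℝ) (hs0 : 0 ≤ s) (hs1 : s ≤ 1) (ht0 : 0 ≤ t) (ht1 : t ≤ 1)
    (hk0 : 0 ≤ k) (hk1 : k ≤ 1) (hl0 : 0 ≤ l) (hl1 : l ≤ 1) :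
    0 ≤ (1 - s * k) * (1 - t * l) ∧ (1 - s * k) * (1 - t * l) ≤ 1 := by
  have h1 : 0 ≤ s * k := mul_nonneg hs0 hk0
  have h2 : s * k ≤ 1 := mul_le_one₀ hs1 hk0 hk1
  have h3 : 0 ≤ t * l := mul_nonneg ht0 hl0
  have h4 : t * l ≤ 1 := mul_le_one₀ ht1 hl0 hl1
  constructor
  · exact mul_nonneg (by linarith) (by linarith)
  · exact mul_le_one₀ (by linarith) (by linarith) (by linarith)

private lemma l_same (σ : α × β → Option γ) (p : α × β) (c0 c' : γ) (h : c' ≠ c0) (a : α)
    (b : β) :
    kB (Function.update σ p (some c0)) b c' = kB (Function.update σ p none) b c' ∧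
      kC (Function.update σ p (some c0)) c' a = kC (Function.update σ p none) c' a := by
  unfold kB kC us
  constructor
  · refine Finset.sum_congr rfl fun a' _ => ?_
    simp only [l_other σ p c0 c' h a' b]
  · refine Finset.sum_congr rfl fun b' _ => ?_
    simp only [l_other σ p c0 c' h a b']

private lemma l_bound (hK : StKUB) (z : γ → ℝ) (s t : ℝ) (a : α) (b : β)
    (hz : ∀ c, |z c| ≤ 1) (hs0 : 0 ≤ s) (hs1 : s ≤ 1) (ht0 : 0 ≤ t) (ht1 : t ≤ 1)
    (σ : α × β → Option γ) (p : α × β) (c0 : γ) :
    |F1 (Function.update σ p (some c0)) z s t a b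
      - F1 (Function.update σ p none) z s t a b| ≤ 2 := by
  set σ' := Function.update σ p (some c0) with hσ'
  set σ'' := Function.update σ p none with hσ''
  obtain ⟨hB', hC'⟩ := l_k01 hK σ'
  obtain ⟨hB'', hC''⟩ := l_k01 hK σ''
  have hterm : ∀ c, |z c * ((1 - s * kB σ' b c) * (1 - t * kC σ' c a))
      - z c * ((1 - s * kB σ'' b c) * (1 - t * kC σ'' c a))|
      ≤ (if c = c0 then 1 else 0) := by
    intro c
    by_cases hc : c = c0
    · rw [if_pos hc]
      obtain ⟨p0, p1⟩ := l_fac s t (kB σ' b c) (kC σ' c a) hs0 hs1 ht0 ht1 (hB' b c).1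
        (hB' b c).2 (hC' c a).1 (hC' c a).2
      obtain ⟨q0, q1⟩ := l_fac s t (kB σ'' b c) (kC σ'' c a) hs0 hs1 ht0 ht1 (hB'' b c).1
        (hB'' b c).2 (hC'' c a).1 (hC'' c a).2
      rw [← mul_sub, abs_mul]
      refine mul_le_one₀ (hz c) (abs_nonneg _) ?_
      rw [abs_le]
      constructor <;> linarith
    · obtain ⟨e1, e2⟩ := l_same σ p c0 c hc a b
      rw [← hσ', ← hσ''] at e1 e2
      rw [e1, e2, sub_self, abs_zero, if_neg hc]
  have hsum : ∑ c, (if c = c0 then (1 : ℝ) else 0) ≤ 2 := by
    rw [Finset.sum_ite_eq' univ c0 (fun _ => (1 : ℝ)), if_pos (Finset.mem_univ c0)]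
    norm_num
  unfold F1
  rw [← Finset.sum_sub_distrib]
  exact (Finset.abs_sum_le_sum_abs _ _).trans
    ((Finset.sum_le_sum fun c _ => hterm c).trans hsum)

private lemma l_eq (z : γ → ℝ) (s t : ℝ) (a : α) (b : β) (σ : α × β → Option γ) (a0 : α)
    (b0 : β) (c0 : γ) (ha : a0 ≠ a) (hb : b0 ≠ b) (hr : some c0 ≠ σ (a, b0))
    (hr' : some c0 ≠ σ (a0, b)) :
    F1 (Function.update σ (a0, b0) (some c0)) z s t a b
      = F1 (Function.update σ (a0, b0) none) z s t a b := by
  have hn : (a, b0) ≠ (a0, b0) := fun e => ha (Prod.ext_iff.1 e).1.symm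
  have hn' : (a0, b) ≠ (a0, b0) := fun e => hb (Prod.ext_iff.1 e).2.symm
  have hB : ∀ c, kB (Function.update σ (a0, b0) (some c0)) b c
      = kB (Function.update σ (a0, b0) none) b c := by
    intro c
    by_cases hc : c = c0
    · subst hc
      unfold kB us
      refine Finset.sum_congr rfl fun a' _ => ?_
      have hiff : Us (Function.update σ (a0, b0) (some c)) a' b c
          ↔ Us (Function.update σ (a0, b0) none) a' b c := by
        by_cases ha' : a' = a0
        · subst ha'
          constructor
          · intro h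
            have h1 := h.1
            rw [Function.update_of_ne hn'] at h1
            exact absurd h1.symm hr'
          · intro h
            have h1 := h.1
            rw [Function.update_of_ne hn'] at h1
            exact absurd h1.symm hr'
        · exact l_far σ a0 b0 (some c) c a' b ha' (Ne.symm hb)
      simp only [hiff]
    · exact (l_same σ (a0, b0) c0 c hc a b).1
  have hC : ∀ c, kC (Function.update σ (a0, b0) (some c0)) c a
      = kC (Function.update σ (a0, b0) none) c a := by
    intro c
    by_cases hc : c = c0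
    · subst hc
      unfold kC us
      refine Finset.sum_congr rfl fun b' _ => ?_
      have hiff : Us (Function.update σ (a0, b0) (some c)) a b' c
          ↔ Us (Function.update σ (a0, b0) none) a b' c := by
        by_cases hb' : b' = b0
        · subst hb'
          constructor
          · intro h
            have h1 := h.1
            rw [Function.update_of_ne hn] at h1
            exact absurd h1.symm hr
          · intro h
            have h1 := h.1
            rw [Function.update_of_ne hn] at h1
            exact absurd h1.symm hr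
        · exact l_far σ a0 b0 (some c) c a b' (Ne.symm ha) hb'
      simp only [hiff]
    · exact (l_same σ (a0, b0) c0 c hc a b).2
  unfold F1
  exact Finset.sum_congr rfl fun c _ => by rw [hB c, hC c]

end

/-- The statistic `F1` depends weakly on each coordinate. -/
theorem hLO1 : StKUB → StLO1 := by
  intro hK α β γ _ _ _ _ _ _ z s t a b hz hs0 hs1 ht0 ht1
  refine ⟨?_, ?_⟩
  · rintro σ ⟨a0, b0⟩ v
    cases v with
    | none => simp
    | some c0 => exact l_bound hK z s t a b hz hs0 hs1 ht0 ht1 σ (a0, b0) c0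
  · rintro σ ⟨a0, b0⟩ hp
    have hab : ¬ (a0 = a ∨ b0 = b) := by
      intro h
      exact hp (Finset.mem_filter.2 ⟨Finset.mem_univ _, h⟩)
    push_neg at hab
    refine ⟨σ (a, b0), σ (a0, b), fun v hv hv' => ?_⟩
    cases v with
    | none => rfl
    | some c0 => exact l_eq z s t a b σ a0 b0 c0 hab.1 hab.2 hv hv'

end Pool.Agent.Helper85.IA85
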